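import Mathlib
import Pool.Agent.H337R3.Sid2

/-!
Subgaussian sets of characters of `(ℤ/4)^ℕ` are finite unions of quasi-independent sets.

A subgaussian set has at most `K log |H|` elements in a finite subgroup `H` it generates: the sum of
the characters of a finite subset `A` is `|A|` on the annihilator of `H = ⟨A⟩`, which has measure
`1 / |H|`. The combinatorial theorem of `Pool.Agent.H337R3.Sid2` (a matroid partition argument along
the chain of divisors `4, 2, 1`) then gives the decomposition.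
-/

namespace Pool.Agent.Results.MP_080bf7_an.SubgaussianUnion

open MeasureTheory

/-- The compact group `G = (ℤ/4)^ℕ`. -/
abbrev G : Type := ℕ → ZMod 4

/-- Its dual group `(ℤ/4)^(ℕ)`: finitely supported sequences. -/
abbrev Ghat : Type := ℕ →₀ ZMod 4

/-- The normalised Haar measure of `G`. -/
noncomputable def mG : Measure G :=
  Measure.addHaarMeasure (⊤ : TopologicalSpace.PositiveCompacts G)

/-- The character `γ_n(t) = exp (2πi ∑ t_k n_k / 4)`. -/
noncomputable def gam (n : Ghat) (t : G) : ℂ :=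
  Complex.exp (2 * Real.pi * Complex.I * ((n.sum fun k a => t k * a).val : ℂ) / 4)

/-- The norm `‖f‖_{ψ₂} = inf {c > 0 : ∫ exp (|f|² / c²) ≤ e}`. -/
noncomputable def psiTwo (f : G → ℂ) : ℝ :=
  sInf {c : ℝ | 0 < c ∧
    ∫⁻ t, ENNReal.ofReal (Real.exp (‖f t‖ ^ 2 / c ^ 2)) ∂mG ≤ ENNReal.ofReal (Real.exp 1)}

/-- `Λ` is subgaussian. -/
def Subgaussian (Λ : Set Ghat) : Prop :=
  ∃ C : ℝ, ∀ (A : Finset Ghat) (a : Ghat → ℂ), (A : Set Ghat) ⊆ Λ →
    psiTwo (fun t => ∑ n ∈ A, a n * gam n t) ≤ C * Real.sqrt (∑ n ∈ A, ‖a n‖ ^ 2)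

/-- `Λ` is quasi-independent. -/
def QuasiIndependent (Λ : Set Ghat) : Prop :=
  ∀ A : Finset Ghat, (A : Set Ghat) ⊆ Λ → ∀ ξ : Ghat → ℤ,
    (∀ n ∈ A, ξ n = -1 ∨ ξ n = 0 ∨ ξ n = 1) → ∑ n ∈ A, ξ n • n = 0 → ∀ n ∈ A, ξ n = 0

lemma gam_eq (n : Ghat) (t : G) : gam n t = ZMod.stdAddChar (n.sum fun k a => t k * a) := by
  rw [gam, ZMod.stdAddChar_apply, ZMod.toCircle_apply]
  norm_num

lemma gam_add (m n : Ghat) (t : G) : gam (m + n) t = gam m t * gam n t := by
  rw [gam_eq, gam_eq, gam_eq, ← AddChar.map_add_eq_mul]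
  congr 1
  exact Finsupp.sum_add_index' (fun k => by simp) (fun k a b => by ring)

lemma gam_zero (t : G) : gam 0 t = 1 := by
  rw [gam_eq]; simp

lemma gam_add_right (n : Ghat) (s t : G) : gam n (s + t) = gam n s * gam n t := by
  rw [gam_eq, gam_eq, gam_eq, ← AddChar.map_add_eq_mul]
  congr 1
  rw [Finsupp.sum, Finsupp.sum, Finsupp.sum, ← Finset.sum_add_distrib]
  exact Finset.sum_congr rfl fun k _ => by simp [add_mul]

lemma continuous_gam (n : Ghat) : Continuous (gam n) := by
  have h : gam n = (fun x : ZMod 4 => ZMod.stdAddChar x) ∘ fun t : G => n.sum fun k a => t k * a := by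
    funext t
    rw [gam_eq]
    rfl
  rw [h]
  refine continuous_of_discreteTopology.comp ?_
  exact continuous_finsetSum _ fun k _ =>
    (continuous_of_discreteTopology (f := fun x : ZMod 4 => x * n k)).comp (continuous_apply k)

instance : IsProbabilityMeasure mG := ⟨by
  have := Measure.addHaarMeasure_self (K₀ := (⊤ : TopologicalSpace.PositiveCompacts G))
  simpa [mG] using this⟩

instance : mG.IsAddLeftInvariant := by
  unfold mG; infer_instance

/-- the annihilator of a finite subgroup has large measure -/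
lemma annihilator_large (M : AddSubgroup Ghat) [Finite M] :
    1 ≤ (Nat.card M : ENNReal) * mG {t : G | ∀ m : M, gam m t = 1} := by
  classical
  let _ := Fintype.ofFinite M
  let S : AddChar M ℂ → Set G := fun ψ => {t : G | ∀ m : M, gam m t = ψ m}
  have hS : ∀ ψ, mG (S ψ) ≤ mG {t : G | ∀ m : M, gam m t = 1} := by
    intro ψ
    by_cases h : (S ψ).Nonempty
    · obtain ⟨t0, ht0⟩ := h
      rw [← measure_preimage_add mG t0 (S ψ)]
      refine measure_mono fun t ht m => ?_
      have h1 : gam m (t0 + t) = ψ m := ht m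
      rw [gam_add_right, ht0 m] at h1
      have h2 : ψ m ≠ 0 := by
        intro h
        have := ψ.map_zero_eq_one
        rw [← add_neg_cancel m, AddChar.map_add_eq_mul, h, zero_mul] at this
        exact zero_ne_one this
      exact mul_left_cancel₀ h2 (h1.trans (mul_one _).symm)
    · rw [Set.not_nonempty_iff_eq_empty.1 h]
      simp
  have hU : (Set.univ : Set G) ⊆ ⋃ ψ, S ψ := by
    intro t _
    refine Set.mem_iUnion.2 ⟨{ toFun := fun m => gam m t
                               map_zero_eq_one' := gam_zero t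
                               map_add_eq_mul' := fun a b => gam_add _ _ t }, fun m => rfl⟩
  have hfin : Fintype.card (AddChar M ℂ) = Nat.card M := by
    rw [AddChar.card_eq, Nat.card_eq_fintype_card]
  calc (1 : ENNReal) = mG Set.univ := measure_univ.symm
    _ ≤ mG (⋃ ψ, S ψ) := measure_mono hU
    _ ≤ ∑ ψ, mG (S ψ) := measure_iUnion_fintype_le _ _
    _ ≤ ∑ _ψ : AddChar M ℂ, mG {t : G | ∀ m : M, gam m t = 1} := Finset.sum_le_sum fun ψ _ => hS ψ
    _ = _ := by
      rw [Finset.sum_const, Finset.card_univ, hfin, nsmul_eq_mul]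

lemma four_nsmul (x : Ghat) : 4 • x = 0 := by
  ext k
  have : (4 : ZMod 4) = 0 := rfl
  simp [this]

/-- a subgaussian set is small in finite subgroups -/
lemma small_of_subgaussian (Λ : Set Ghat) (h0 : (0 : Ghat) ∉ Λ) (hΛ : Subgaussian Λ) :
    ∃ K : ℕ, Pool.Agent.H337R3.Sid.Small K Λ := by
  classical
  obtain ⟨C, hC⟩ := hΛ
  set c₀ : ℝ := |C| + 1 with hc₀
  have hc₀pos : 0 < c₀ := by positivity
  refine ⟨⌈3 * c₀ ^ 2⌉₊, fun A hA => ?_⟩
  by_cases hAe : A.Nonempty
  swap
  · rw [Finset.not_nonempty_iff_eq_empty] at hAe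
    subst hAe
    simp only [Finset.card_empty, pow_zero]
    apply Nat.one_le_pow
    have : Finite (AddSubgroup.closure ((∅ : Finset Ghat) : Set Ghat)) :=
      Pool.Agent.H337R3.Sid.closure_finite 4 (by norm_num) ∅ (by simp)
    exact Nat.card_pos
  have hAcard : 0 < A.card := Finset.card_pos.mpr hAe
  have hApos : (0 : ℝ) < A.card := by exact_mod_cast hAcard
  set M := AddSubgroup.closure (A : Set Ghat) with hM
  have hMfin : Finite M :=
    Pool.Agent.H337R3.Sid.closure_finite 4 (by norm_num) A (fun x _ => four_nsmul x)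
  have hN2 : 2 ≤ Nat.card M := by
    obtain ⟨x, hx⟩ := hAe
    have hx0 : x ≠ 0 := by
      rintro rfl
      exact h0 (hA hx)
    have : Nontrivial M := ⟨⟨⟨x, AddSubgroup.subset_closure hx⟩, 0, fun h => hx0 (by
      have := congrArg Subtype.val h
      simpa using this)⟩⟩
    exact Finite.one_lt_card
  set f : G → ℂ := fun t => ∑ n ∈ A, gam n t with hf
  -- the psi-2 estimate
  set c : ℝ := c₀ * Real.sqrt A.card with hc
  have hcpos : 0 < c := by positivity
  have hpsi : psiTwo f < c := by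
    have h1 := hC A (fun _ => 1) hA
    simp only [one_mul, norm_one, one_pow, Finset.sum_const, nsmul_eq_mul, mul_one] at h1
    refine h1.trans_lt ?_
    have : C < c₀ := by
      rw [hc₀]
      linarith [le_abs_self C]
    exact mul_lt_mul_of_pos_right this (Real.sqrt_pos.2 hApos)
  have hne : {c : ℝ | 0 < c ∧ ∫⁻ t, ENNReal.ofReal (Real.exp (‖f t‖ ^ 2 / c ^ 2)) ∂mG
      ≤ ENNReal.ofReal (Real.exp 1)}.Nonempty := by
    refine ⟨A.card, hApos, ?_⟩
    calc ∫⁻ t, ENNReal.ofReal (Real.exp (‖f t‖ ^ 2 / (A.card : ℝ) ^ 2)) ∂mG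
        ≤ ∫⁻ _, ENNReal.ofReal (Real.exp 1) ∂mG := by
          refine lintegral_mono fun t => ENNReal.ofReal_le_ofReal (Real.exp_le_exp.2 ?_)
          rw [div_le_one (by positivity)]
          refine pow_le_pow_left₀ (norm_nonneg _) ?_ 2
          calc ‖f t‖ ≤ ∑ n ∈ A, ‖gam n t‖ := norm_sum_le _ _
            _ = A.card := by
              rw [Finset.sum_congr rfl (fun n _ => show ‖gam n t‖ = 1 by
                rw [gam_eq]
                exact AddChar.norm_apply _ _)]
              simp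
      _ = ENNReal.ofReal (Real.exp 1) := by simp
  obtain ⟨c', ⟨hc'pos, hc'⟩, hc'lt⟩ := exists_lt_of_csInf_lt hne hpsi
  have hint : ∫⁻ t, ENNReal.ofReal (Real.exp (‖f t‖ ^ 2 / c ^ 2)) ∂mG
      ≤ ENNReal.ofReal (Real.exp 1) := by
    refine le_trans (lintegral_mono fun t => ENNReal.ofReal_le_ofReal (Real.exp_le_exp.2 ?_)) hc'
    exact div_le_div_of_nonneg_left (by positivity) (by positivity)
      (pow_le_pow_left₀ hc'pos.le hc'lt.le 2)
  -- lower bound on the annihilator
  set P : Set G := {t : G | ∀ m : M, gam m t = 1} with hP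
  have hmeas : Measurable fun t => ENNReal.ofReal (Real.exp (‖f t‖ ^ 2 / c ^ 2)) := by
    have : Continuous f := continuous_finsetSum _ fun n _ => continuous_gam n
    exact (ENNReal.continuous_ofReal.comp (by fun_prop)).measurable
  have hlow : ENNReal.ofReal (Real.exp ((A.card : ℝ) ^ 2 / c ^ 2)) * mG P
      ≤ ENNReal.ofReal (Real.exp 1) := by
    refine le_trans ?_ ((mul_meas_ge_le_lintegral₀ hmeas.aemeasurable
      (ENNReal.ofReal (Real.exp ((A.card : ℝ) ^ 2 / c ^ 2)))).trans hint)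
    gcongr
    intro t ht
    have hft : f t = (A.card : ℂ) := by
      rw [hf]
      simp only
      rw [Finset.sum_congr rfl (fun n hn => ht ⟨n, AddSubgroup.subset_closure hn⟩)]
      simp
    change _ ≤ ENNReal.ofReal (Real.exp (‖f t‖ ^ 2 / c ^ 2))
    rw [hft]
    simp
  have hmain : ENNReal.ofReal (Real.exp ((A.card : ℝ) ^ 2 / c ^ 2))
      ≤ (Nat.card M : ENNReal) * ENNReal.ofReal (Real.exp 1) := by
    calc ENNReal.ofReal (Real.exp ((A.card : ℝ) ^ 2 / c ^ 2))
        ≤ ENNReal.ofReal (Real.exp ((A.card : ℝ) ^ 2 / c ^ 2)) * ((Nat.card M : ENNReal) * mG P) :=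
          le_mul_of_one_le_right' (annihilator_large M)
      _ = (Nat.card M : ENNReal) *
          (ENNReal.ofReal (Real.exp ((A.card : ℝ) ^ 2 / c ^ 2)) * mG P) := by ring
      _ ≤ _ := by gcongr
  have hreal : Real.exp ((A.card : ℝ) / c₀ ^ 2) ≤ (Nat.card M : ℝ) * Real.exp 1 := by
    have h1 : (A.card : ℝ) ^ 2 / c ^ 2 = (A.card : ℝ) / c₀ ^ 2 := by
      rw [hc, mul_pow, Real.sq_sqrt hApos.le]
      field_simp
    rw [h1, show (Nat.card M : ENNReal) = ENNReal.ofReal (Nat.card M) by simp,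
      ← ENNReal.ofReal_mul (by positivity)] at hmain
    exact (ENNReal.ofReal_le_ofReal_iff (by positivity)).1 hmain
  -- conclusion
  have hN2' : (2 : ℝ) ≤ Nat.card M := by exact_mod_cast hN2
  have he : Real.exp 1 ≤ (Nat.card M : ℝ) ^ 2 := by
    have := Real.exp_one_lt_d9
    nlinarith
  have h3 : Real.exp ((A.card : ℝ) / c₀ ^ 2) ≤ (Nat.card M : ℝ) ^ 3 := by
    refine hreal.trans ?_
    have : (Nat.card M : ℝ) ^ 3 = (Nat.card M : ℝ) * (Nat.card M : ℝ) ^ 2 := by ring
    rw [this]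
    exact mul_le_mul_of_nonneg_left he (by positivity)
  have hlog : (A.card : ℝ) ≤ 3 * c₀ ^ 2 * Real.log (Nat.card M) := by
    have h4 := Real.log_le_log (Real.exp_pos _) h3
    rw [Real.log_exp, Real.log_pow, div_le_iff₀ (by positivity)] at h4
    push_cast at h4
    linarith
  have hlogpos : 0 ≤ Real.log (Nat.card M) := Real.log_nonneg (by linarith)
  have h5 : Real.log 2 * A.card ≤ (⌈3 * c₀ ^ 2⌉₊ : ℝ) * Real.log (Nat.card M) := by
    calc Real.log 2 * A.card ≤ 1 * A.card := by
          refine mul_le_mul_of_nonneg_right ?_ hApos.le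
          linarith [Real.log_two_lt_d9]
      _ = A.card := one_mul _
      _ ≤ 3 * c₀ ^ 2 * Real.log (Nat.card M) := hlog
      _ ≤ _ := mul_le_mul_of_nonneg_right (Nat.le_ceil _) hlogpos
  have h6 : ((2 : ℝ)) ^ A.card ≤ (Nat.card M : ℝ) ^ ⌈3 * c₀ ^ 2⌉₊ := by
    rw [← Real.log_le_log_iff (by positivity) (by positivity), Real.log_pow, Real.log_pow]
    linarith
  exact_mod_cast h6

/-- Every subgaussian set of nonzero characters of `(ℤ/4)^ℕ` is a finite union of
quasi-independent sets. -/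
theorem result (Λ : Set Ghat) (h0 : (0 : Ghat) ∉ Λ) (hΛ : Subgaussian Λ) :
    ∃ (k : ℕ) (Q : Fin k → Set Ghat), (∀ i, QuasiIndependent (Q i)) ∧ Λ = ⋃ i, Q i := by
  classical
  obtain ⟨K, hK⟩ := small_of_subgaussian Λ h0 hΛ
  obtain ⟨Q, hQ, hU⟩ := Pool.Agent.H337R3.Sid.finite_union (Γ := Ghat)
    [2, 2] (by simp [Nat.prime_two]) K Λ (fun x _ => by
      have := four_nsmul x
      simpa using this) hK
  exact ⟨_, Q, fun i A hA ξ hξ hrel => hQ i A hA ξ hξ hrel, hU⟩

end Pool.Agent.Results.MP_080bf7_an.SubgaussianUnion
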